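import Pool.Agent.H68.Lf2

set_option autoImplicit false

namespace Pool.Agent.Results.MP_035081_al.SatLocal

open Pool.Agent.H68.Lf

/-- Every non-empty soluble saturated Fitting class of finite groups is local. -/
theorem result (F : Cl) (hF : IsFit F) (hn : NE F)
    (hs : ∀ (G : Type) [Group G], F G → Group.IsSolvable G) (hS : Saturated F) : IsLocal F :=
  main hF hn hs hS

end Pool.Agent.Results.MP_035081_al.SatLocal
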